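import Pool.Agent.W_448tw_h76.TwD
import Pool.Agent.W_448fw_h5.FwV

/-!
# Twins over arbitrary component data (MP_448cb3_co)

`Y ⊆ R` are unnatural elements, `τ x ∉ R` is a natural element with the same strict up-set as `x`.
Component data for `R` give component data with twins for `R \ Y`: a lower set `D ⊇ R \ Y` which
breaks all pairs is turned into a lower set `D' ⊇ R` by exchanging the twins, and the complements
are isomorphic.
-/

namespace Pool.Agent.GaussPoset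

set_option linter.unusedSectionVars false

open Polynomial Finset

universe u

variable {P : Type u} [Fintype P] [PartialOrder P] [DecidableEq P]
variable {ι : Type*}

/-- twins `x ∈ Y` of natural elements `τ x` -/
structure TwSys (R Y : Finset P) (cp : P → ι) (τ : P → P) : Prop where
  sub : Y ⊆ R
  nat : ∀ x ∈ Y, τ x ∉ R
  up : ∀ x ∈ Y, ∀ y, τ x < y ↔ x < y
  inj : ∀ x ∈ Y, ∀ x' ∈ Y, τ x = τ x' → x = x'
  anti : ∀ x ∈ Y, ∀ y ∈ Y, ¬ y < x
  cp : ∀ x ∈ Y, cp (τ x) = cp x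

section Tw

variable {R Y D : Finset P} {cp : P → ι} {τ : P → P} {k : ι} {i b : ℕ} {θ : P → ℕ} {B : P → Prop}

/-- the thresholds on the twins -/
def thX (Y : Finset P) (τ : P → P) (θ : P → ℕ) (x : P) : ℕ := if x ∈ Y then θ (τ x) else θ x

lemma thX_of {x : P} (h : x ∈ Y) : thX Y τ θ x = θ (τ x) := if_pos h

lemma thX_not {x : P} (h : x ∉ Y) : thX Y τ θ x = θ x := if_neg h

/-- the pairs of twins -/
def pairsX (Y : Finset P) (τ : P → P) : Finset (P × P) := Y.image (fun x => (τ x, x))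

lemma mem_pairsX {t : P × P} : t ∈ pairsX Y τ ↔ t.2 ∈ Y ∧ t.1 = τ t.2 := by
  unfold pairsX
  rw [mem_image]
  constructor
  · rintro ⟨x, hx, rfl⟩
    exact ⟨hx, rfl⟩
  · rintro ⟨h1, h2⟩
    exact ⟨t.2, h1, Prod.ext h2.symm rfl⟩

lemma TwSys.lower (T : TwSys R Y cp τ) (hR : ∀ x y, x ≤ y → y ∈ R → x ∈ R) :
    ∀ x y, x ≤ y → y ∈ R \ Y → x ∈ R \ Y := by
  intro x y hxy hy
  rw [mem_sdiff] at hy ⊢
  refine ⟨hR x y hxy hy.1, fun hxX => ?_⟩
  rcases eq_or_lt_of_le hxy with h | h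
  · exact hy.2 (h ▸ hxX)
  · exact T.nat x hxX (hR _ y ((T.up x hxX y).mpr h).le hy.1)

lemma TwSys.cp' (T : TwSys R Y cp τ) (hcp : ∀ x y, x ≤ y → x ∉ R → cp x = cp y) :
    ∀ x y, x ≤ y → x ∉ R \ Y → cp x = cp y := by
  intro x y hxy hx
  by_cases hxX : x ∈ Y
  · rcases eq_or_lt_of_le hxy with h | h
    · rw [h]
    · rw [← T.cp x hxX]
      exact hcp _ y ((T.up x hxX y).mpr h).le (T.nat x hxX)
  · refine hcp x y hxy fun hxR => hx (mem_sdiff.mpr ⟨hxR, hxX⟩)

/-- the lower set with the twins exchanged -/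
def exc (Y : Finset P) (τ : P → P) (D : Finset P) : Finset P := (D \ (Y \ D).image τ) ∪ Y

lemma mem_exc {x : P} : x ∈ exc Y τ D ↔ (x ∈ D ∧ ∀ y ∈ Y, y ∉ D → τ y ≠ x) ∨ x ∈ Y := by
  unfold exc
  rw [mem_union, mem_sdiff, mem_image]
  constructor
  · rintro (⟨h1, h2⟩ | h)
    · exact Or.inl ⟨h1, fun y hy hyD h3 => h2 ⟨y, mem_sdiff.mpr ⟨hy, hyD⟩, h3⟩⟩
    · exact Or.inr h
  · rintro (⟨h1, h2⟩ | h)
    · refine Or.inl ⟨h1, ?_⟩
      rintro ⟨y, hy, h3⟩
      rw [mem_sdiff] at hy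
      exact h2 y hy.1 hy.2 h3
    · exact Or.inr h

lemma TwSys.good_exc (T : TwSys R Y cp τ) (hR : ∀ x y, x ≤ y → y ∈ R → x ∈ R)
    (hRlev : ∀ x ∈ R, i < lev x) (hBR : ∀ x ∈ R, ¬ B x) (hD : Good i (R \ Y) B D) :
    Good i R B (exc Y τ D) := by
  obtain ⟨h1, h2, h3, h4⟩ := hD
  have hsub : ∀ x ∈ R, x ∈ exc Y τ D := by
    intro x hx
    rw [mem_exc]
    by_cases hxX : x ∈ Y
    · exact Or.inr hxX
    · refine Or.inl ⟨h2 (mem_sdiff.mpr ⟨hx, hxX⟩), fun y hy _ h => ?_⟩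
      exact T.nat y hy (h ▸ hx)
  refine ⟨?_, hsub, ?_, ?_⟩
  · intro x y hxy hy
    rcases eq_or_lt_of_le hxy with h | hlt
    · rw [h]; exact hy
    rw [mem_exc] at hy
    rcases hy with ⟨hy1, hy2⟩ | hy
    · rw [mem_exc]
      refine Or.inl ⟨h1 x y hxy hy1, fun w hw hwD h => ?_⟩
      refine hwD (h1 w y ?_ hy1)
      exact ((T.up w hw y).mp (by rw [h]; exact hlt)).le
    · exact hsub x (hR x y hxy (T.sub hy))
  · intro x hx
    rw [mem_exc] at hx
    rcases hx with hx | hx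
    · exact h3 x hx.1
    · exact hRlev x (T.sub hx)
  · intro x hx
    rw [mem_exc] at hx
    rcases hx with hx | hx
    · exact h4 x hx.1
    · exact hBR x (T.sub hx)

/-- replace the twins by the natural elements -/
def repl (Y : Finset P) (τ : P → P) (x : P) : P := if x ∈ Y then τ x else x

lemma repl_of {x : P} (h : x ∈ Y) : repl Y τ x = τ x := if_pos h

lemma repl_not {x : P} (h : x ∉ Y) : repl Y τ x = x := if_neg h

lemma TwSys.repl_cp (T : TwSys R Y cp τ) (x : P) : cp (repl Y τ x) = cp x := by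
  by_cases h : x ∈ Y
  · rw [repl_of h, T.cp x h]
  · rw [repl_not h]

lemma TwSys.repl_not_mem (T : TwSys R Y cp τ) {x : P} (hx : x ∉ D) :
    repl Y τ x ∉ exc Y τ D := by
  rw [mem_exc]
  by_cases h : x ∈ Y
  · rw [repl_of h]
    rintro (h1 | h1)
    · exact h1.2 x h hx rfl
    · exact T.nat x h (T.sub h1)
  · rw [repl_not h]
    rintro (h1 | h1)
    · exact hx h1.1
    · exact h h1

lemma repl_surj {y : P} (hy : y ∉ exc Y τ D) : ∃ x, x ∉ D ∧ repl Y τ x = y := by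
  rw [mem_exc, not_or] at hy
  obtain ⟨h1, h2⟩ := hy
  by_cases hyD : y ∈ D
  · have h3 : ¬ ∀ w ∈ Y, w ∉ D → τ w ≠ y := fun h => h1 ⟨hyD, h⟩
    push Not at h3
    obtain ⟨w, hw, hwD, h4⟩ := h3
    exact ⟨w, hwD, by rw [repl_of hw, h4]⟩
  · exact ⟨y, hyD, repl_not h2⟩

lemma TwSys.repl_le (T : TwSys R Y cp τ) (hR : ∀ x y, x ≤ y → y ∈ R → x ∈ R)
    (hlow : ∀ x y, x ≤ y → y ∈ D → x ∈ D) (hRD : R \ Y ⊆ D)
    (hbr : ∀ x ∈ Y, τ x ∈ D ∨ x ∈ D) {x y : P} (hx : x ∉ D) (hy : y ∉ D) :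
    repl Y τ x ≤ repl Y τ y ↔ x ≤ y := by
  have hτ : ∀ w ∈ Y, w ∉ D → τ w ∈ D := fun w hw hwD => (hbr w hw).resolve_right hwD
  by_cases hxX : x ∈ Y
  · rw [repl_of hxX]
    by_cases hyX : y ∈ Y
    · rw [repl_of hyX]
      constructor
      · intro h
        rcases eq_or_lt_of_le h with h1 | h1
        · exact (T.inj x hxX y hyX h1).le
        · exact absurd (hlow x _ ((T.up x hxX _).mp h1).le (hτ y hyX hy)) hx
      · intro h
        rcases eq_or_lt_of_le h with h1 | h1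
        · rw [h1]
        · exact absurd h1 (T.anti y hyX x hxX)
    · rw [repl_not hyX]
      constructor
      · intro h
        rcases eq_or_lt_of_le h with h1 | h1
        · exact absurd (h1 ▸ hτ x hxX hx) hy
        · exact ((T.up x hxX y).mp h1).le
      · intro h
        rcases eq_or_lt_of_le h with h1 | h1
        · exact absurd (h1 ▸ hxX) hyX
        · exact ((T.up x hxX y).mpr h1).le
  · rw [repl_not hxX]
    by_cases hyX : y ∈ Y
    · rw [repl_of hyX]
      constructor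
      · intro h
        exact absurd (hlow x _ h (hτ y hyX hy)) hx
      · intro h
        have hxR : x ∈ R := hR x y h (T.sub hyX)
        exact absurd (hRD (mem_sdiff.mpr ⟨hxR, hxX⟩)) hx
    · rw [repl_not hyX]

/-- the complements are isomorphic -/
theorem TwSys.dvd_W (T : TwSys R Y cp τ) (hR : ∀ x y, x ≤ y → y ∈ R → x ∈ R)
    (hD : Good i (R \ Y) B D) (hbr : Broken (pairsX Y τ) D) [DecidableEq ι]
    (h : (1 + X : Polynomial (PowerSeries ℤ)) ^ b ∣
      W {x : {x : P // x ∉ exc Y τ D} // cp (x : P) = k} i) :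
    (1 + X : Polynomial (PowerSeries ℤ)) ^ b ∣ W {x : {x : P // x ∉ D} // cp (x : P) = k} i := by
  classical
  have hbr' : ∀ x ∈ Y, τ x ∈ D ∨ x ∈ D := fun x hx =>
    hbr (τ x, x) (mem_pairsX.mpr ⟨hx, rfl⟩)
  let f : {x : {x : P // x ∉ D} // cp (x : P) = k} →
      {x : {x : P // x ∉ exc Y τ D} // cp (x : P) = k} :=
    fun x => ⟨⟨repl Y τ x.1.1, T.repl_not_mem x.1.2⟩, by
      show cp (repl Y τ x.1.1) = k
      rw [T.repl_cp]; exact x.2⟩
  have hf : ∀ x y, f x ≤ f y ↔ x ≤ y := fun x y =>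
    T.repl_le hR hD.1 hD.2.1 hbr' x.1.2 y.1.2
  have hbij : Function.Bijective f := by
    constructor
    · intro x y hxy
      exact le_antisymm ((hf x y).mp hxy.le) ((hf y x).mp hxy.ge)
    · intro y
      obtain ⟨x, hx, hxy⟩ := repl_surj y.1.2
      refine ⟨⟨⟨x, hx⟩, ?_⟩, Subtype.ext (Subtype.ext hxy)⟩
      rw [← T.repl_cp x, hxy]
      exact y.2
  let e : {x : {x : P // x ∉ D} // cp (x : P) = k} ≃o
      {x : {x : P // x ∉ exc Y τ D} // cp (x : P) = k} :=
    { Equiv.ofBijective f hbij with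
      map_rel_iff' := fun {x y} => hf x y }
  rw [W_iso e]
  exact h

lemma TwSys.lev (T : TwSys R Y cp τ) {x : P} (hx : x ∈ Y) :
    Pool.Agent.GaussPoset.lev (τ x) = Pool.Agent.GaussPoset.lev x :=
  lev_eq_of_up (T.up x hx)

lemma TwSys.cov (T : TwSys R Y cp τ) {x y : P} (hx : x ∈ Y) : τ x ⋖ y ↔ x ⋖ y := by
  constructor
  · intro h
    exact ⟨(T.up x hx y).mp h.1, fun z h1 h2 => h.2 ((T.up x hx z).mpr h1) h2⟩
  · intro h
    exact ⟨(T.up x hx y).mpr h.1, fun z h1 h2 => h.2 ((T.up x hx z).mp h1) h2⟩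

/-- component data with twins -/
theorem CompData.toTwins (H : CompData R cp k i b θ B) (T : TwSys R Y cp τ)
    (hR : ∀ x y, x ≤ y → y ∈ R → x ∈ R) (hRlev : ∀ x ∈ R, i < Pool.Agent.GaussPoset.lev x)
    (hBR : ∀ x ∈ R, ¬ B x) : CompDataT (R \ Y) cp k i b (thX Y τ θ) B (pairsX Y τ) where
  clean := by
    intro D hD hbr hdec
    exact T.dvd_W hR hD hbr (H.clean _ (T.good_exc hR hRlev hBR hD) hdec)
  lev := by
    intro x hx hk h1
    by_cases hxY : x ∈ Y
    · rw [thX_of hxY] at h1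
      rw [← T.lev hxY]
      exact H.lev _ (T.nat x hxY) ((T.cp x hxY).trans hk) h1
    · rw [thX_not hxY] at h1
      exact H.lev x (fun h => hx (mem_sdiff.mpr ⟨h, hxY⟩)) hk h1
  base := by
    intro x hx hk h1 y hyx hy
    by_cases hyR : y ∈ R
    · exact hBR y hyR
    · have hxR : x ∉ R := fun h => hyR (hR y x hyx h)
      have hxY : x ∉ Y := fun h => hxR (T.sub h)
      rw [thX_not hxY] at h1
      exact H.base x hxR hk h1 y hyx hyR
  step := by
    intro x hx hk h1 y hyx hy x' hx' hyx' hn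
    have hyR : ∀ {w}, w ∈ R → y ≤ w → y ∈ Y := by
      intro w hw hyw
      by_contra hcon
      exact hy (mem_sdiff.mpr ⟨hR y w hyw hw, hcon⟩)
    have hxY' : x' ∉ Y := fun h => T.anti x' h y (hyR (T.sub h) hyx'.1.le) hyx'.1
    have hxR' : x' ∉ R := fun h => hx' (mem_sdiff.mpr ⟨h, hxY'⟩)
    rw [thX_not hxY']
    by_cases hxY : x ∈ Y
    · have hyY := hyR (T.sub hxY) hyx
      have hyx2 : y = x := by
        by_contra hne
        exact T.anti x hxY y hyY (lt_of_le_of_ne hyx hne)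
      subst hyx2
      rw [thX_of hxY] at h1 ⊢
      have h2 := (T.cov (y := x') hxY).mpr hyx'
      exact H.step _ (T.nat _ hxY) ((T.cp _ hxY).trans hk) h1 _ le_rfl (T.nat _ hxY) x' hxR' h2
        (not_le_of_gt h2.1)
    · have hxR : x ∉ R := fun h => hx (mem_sdiff.mpr ⟨h, hxY⟩)
      rw [thX_not hxY] at h1 ⊢
      by_cases hyY : y ∈ Y
      · have hne : y ≠ x := fun h => hxY (h ▸ hyY)
        have h2 := (T.cov (y := x') hyY).mpr hyx'
        have h3 := (T.up y hyY x).mpr (lt_of_le_of_ne hyx hne)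
        exact H.step x hxR hk h1 _ h3.le (T.nat _ hyY) x' hxR' h2 hn
      · exact H.step x hxR hk h1 y hyx (fun h => hy (mem_sdiff.mpr ⟨h, hyY⟩)) x' hxR' hyx' hn
  le := by
    intro x hx hk
    by_cases hxY : x ∈ Y
    · rw [thX_of hxY, ← T.lev hxY]
      exact H.le _ (T.nat x hxY) ((T.cp x hxY).trans hk)
    · rw [thX_not hxY]
      exact H.le x (fun h => hx (mem_sdiff.mpr ⟨h, hxY⟩)) hk

end Tw

section Assembly

variable {i : ℕ} {N : Tops P → Finset P} {b : Tops P → ℕ} {θ : Tops P → P → ℕ}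
  {B : Tops P → P → Prop} {Y : Finset P} {τ : P → P}

/-- assembly: natural sets of all tops and twins of natural elements -/
theorem farT_of_tops (hgr : GradedBelow P) (H : ∀ t, NatTop i t (b t) (N t) (θ t) (B t))
    (T : TwSys (unnat N) Y topOf τ) (n0 : ℕ)
    (htw : ∀ x ∈ Y, TwinPair i (thX Y τ (fun x => θ (topOf x) x)) n0 (τ x) x) :
    FarT P i (unnat N \ Y) (∑ t, b t)
      (hcan (unnat N \ Y) (thX Y τ (fun x => θ (topOf x) x))) n0 := by
  have HN := natSys_of_tops H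
  have hRlev : ∀ x ∈ unnat N, i < lev x := by
    intro x hx
    by_contra hcon
    exact low_natural H (not_lt.mp hcon) hx
  refine farT_of_compT hgr (T.lower HN.lower) (fun x hx => hRlev x (mem_sdiff.mp hx).1) topOf
    (T.cp' HN.cp) b _ (fun x => x ∉ unnat N ∧ B (topOf x) x)
    (fun x hx h => h.1 (mem_sdiff.mp hx).1) (pairsX Y τ) n0 ?_ ?_ ?_ ?_
  · intro t
    refine CompData.toTwins ((H t).data N HN rfl _ _ ?_ ?_) T HN.lower hRlev (fun x hx h => h.1 hx)
    · intro x hx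
      simp only [HN.topOf_eq hx]
    · intro x hx
      simp only [HN.topOf_eq hx, (HN.mem_iff.mp hx).1, not_false_eq_true, true_and]
  · intro t ht
    rw [mem_pairsX] at ht
    have h1 := htw t.2 ht.1
    rw [← ht.2] at h1
    exact h1
  · intro t ht y hy
    rw [mem_pairsX] at ht
    rw [mem_sdiff]
    exact ⟨HN.lower y _ hy.le (T.sub ht.1), fun h => T.anti _ ht.1 y h hy⟩
  · intro t ht
    rw [mem_pairsX] at ht
    rw [mem_sdiff, mem_sdiff, ht.2]
    exact ⟨fun h => T.nat _ ht.1 h.1, fun h => h.2 ht.1⟩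

end Assembly

end Pool.Agent.GaussPoset
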