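import Pool.Agent.W_448rr_h67.RrD

/-!
# No rotation in a rectangle-like component (MP_448cb3_co)
-/

namespace Pool.Agent.GaussPoset

set_option linter.unusedSectionVars false

open Polynomial Finset

universe u

variable {P : Type u} [Fintype P] [PartialOrder P] [DecidableEq P] {r j : ℕ}
  {N : Tops P → Finset P} {b : Tops P → ℕ} {θ : Tops P → P → ℕ}

/-- the set outside which everything is natural or a twin -/
noncomputable abbrev r2 (j : ℕ) (N : Tops P → Finset P) : Finset P := unnat N \ twY j N

/-- the labels -/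
noncomputable abbrev h2 (j : ℕ) (N : Tops P → Finset P) (θ : Tops P → P → ℕ) : P → ℕ :=
  hcan (r2 j N) (thX (twY j N) (twT N) (fun x => θ (topOf x) x))

/-- the boundary: level `j + 1` or large cost -/
theorem W1.bd (W : W1 r j N b θ) {z : P} (hz : z ∈ bdR (r2 j N)) :
    lev z = j + 1 ∨ j ^ 2 + 1 ≤ cst 1 (h2 j N θ) z := by
  classical
  have H := W.gt.H
  have hj := W.two_le
  have T := W.twSys
  have hzR : z ∈ unnat N := (mem_sdiff.mp (mem_filter.mp hz).1).1
  have hlz := W.lt_lev hzR
  by_cases hl : lev z = j + 1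
  · exact Or.inl hl
  right
  obtain ⟨u, hu, hzu, hh⟩ := hcan_spec (θ := thX (twY j N) (twT N) (fun x => θ (topOf x) x)) hz
  have hlu := (H.covBy_iff.mp hzu).2
  have hbig : ∀ a, j ≤ a → j ^ 2 + 1 ≤ (a + 1) * a := by
    intro a ha
    nlinarith
  by_cases huY : u ∈ twY j N
  · have hI := W.inner_tw huY
    have h1 := mem_twY.mp huY
    rw [thX_of huY, hI.th, T.lev huY] at hh
    have h3 := cst_ge_sq_sub (i := 1) (h := h2 j N θ) (z := z) (by omega)
      (by show h2 j N θ z = _; rw [show h2 j N θ z = _ from hh]; omega) (by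
        intro k hk hk2
        refine le_trans ?_ (nab_mono hzu.le)
        refine le_trans (hI.two (k := k) hk.le (by rw [T.lev huY]; omega)) ?_
        exact nab_le_of_up (T.up u huY) (by rw [T.lev huY]; omega))
    refine le_trans ?_ h3
    have := hbig (lev z - 1 - 1) (by omega)
    rw [show lev z - 1 - 1 + 1 = lev z - 1 by omega] at this
    exact this
  · have huR : u ∉ unnat N := fun h => hu (mem_sdiff.mpr ⟨h, huY⟩)
    rw [thX_not huY] at hh
    rcases W.cases huR with hF | hI
    · rw [hF.th] at hh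
      have h3 := sq_le_cst (i := 1) (h := h2 j N θ) (z := z) (by omega)
        (by show h2 j N θ z = _; rw [show h2 j N θ z = _ from hh]; omega) (by
          intro k hk hk2
          exact hF.two z hzR hzu.le k hk.le (by omega))
      refine le_trans ?_ h3
      have := hbig (lev z - 1 - 1) (by omega)
      rw [show lev z - 1 - 1 + 1 = lev z - 1 by omega] at this
      refine this.trans ?_
      rw [pow_two]
      exact Nat.mul_le_mul_left _ (Nat.sub_le _ _)
    · rw [hI.th] at hh
      have h3 := cst_ge_sq_sub (i := 1) (h := h2 j N θ) (z := z) (by omega)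
        (by show h2 j N θ z = _; rw [show h2 j N θ z = _ from hh]; omega) (by
          intro k hk hk2
          refine le_trans (hI.two (k := k) hk.le (by omega)) (nab_mono hzu.le))
      refine le_trans ?_ h3
      have := hbig (lev z - 1 - 1) (by omega)
      rw [show lev z - 1 - 1 + 1 = lev z - 1 by omega] at this
      exact this

/-- rotations are boundary elements -/
theorem W1.rt_bd (W : W1 r j N b θ) {z : P} (hl : lev z = j + 1) (hR : Rt j N b z) :
    z ∈ bdR (r2 j N) := by
  classical
  have H := W.gt.H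
  have HN := W.natSys
  obtain ⟨Nc, co, x, x', h0, h1, hx, hx', hzx, hzx', hcx, hcx'⟩ := hR
  have hj := W.two_le
  have hnat : ∀ y : P, y ∉ unnat N → topOf y = topOf z → y ⋖ x → y ⋖ x' → False := by
    intro y hy ht hyx hyx'
    have h2 := HN.mem_iff.mpr ⟨hy, ht⟩
    rw [h1] at h2
    exact chart_rot h0.chart H hj hx hx' hcx hcx' hyx hyx' h2
  have hz : z ∈ unnat N := by
    by_contra hcon
    exact hnat z hcon rfl hzx hzx'
  have hzY : z ∉ twY j N := by
    intro hY
    exact hnat _ (W.twSys.nat z hY) (W.twSys.cp z hY) ((W.twSys.cov hY).mpr hzx)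
      ((W.twSys.cov hY).mpr hzx')
  refine mem_filter.mpr ⟨mem_sdiff.mpr ⟨hz, hzY⟩, x, fun h => ?_, hzx⟩
  have h3 := W.lt_lev (mem_sdiff.mp h).1
  have h4 := h0.chart.lev x hx
  rw [hcx] at h4
  simp only at h4
  omega

/-- label and numbers of elements above a rotation -/
theorem W1.rt_data (W : W1 r j N b θ) {z : P} (hl : lev z = j + 1) (hR : Rt j N b z) :
    h2 j N θ z = j ∧ ∀ k, 1 ≤ k → k ≤ j → nab k z = 2 := by
  classical
  have H := W.gt.H
  have HN := W.natSys
  have hbd := W.rt_bd hl hR
  have hz : z ∈ unnat N := (mem_sdiff.mp (mem_filter.mp hbd).1).1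
  obtain ⟨Nc, co, x, x', h0, h1, hx, hx', hzx, hzx', hcx, hcx'⟩ := hR
  have hj := W.two_le
  have hlx : lev x = j := by
    have h4 := h0.chart.lev x hx
    rw [hcx] at h4
    simp only at h4
    omega
  have hlx' : lev x' = j := by
    have h4 := h0.chart.lev x' hx'
    rw [hcx'] at h4
    simp only at h4
    omega
  have hne : x ≠ x' := by
    rintro rfl
    rw [hcx] at hcx'
    simp only [Prod.mk.injEq] at hcx'
    omega
  have huni : ∀ y, z ⋖ y → y = x ∨ y = x' := by
    intro y hy
    by_contra hcon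
    push Not at hcon
    exact Win.uc_three H hy hzx hzx' hcon.1 hcon.2 hne
  have hnx : ∀ k ≤ j, nab k x = 1 := by
    intro k hk
    rw [nab_chart h0.chart hx k, hcx]
    have := card_cellsAt_true (l := k) (p := (0, j)) (by simp only; omega)
    simp only at this
    omega
  have hnx' : ∀ k ≤ j, nab k x' = 1 := by
    intro k hk
    rw [nab_chart h0.chart hx' k, hcx']
    have := card_cellsAt_true (l := k) (p := (j, 0)) (by simp only; omega)
    simp only at this
    omega
  constructor
  · obtain ⟨u, hu, hzu, hh⟩ := hcan_spec (θ := thX (twY j N) (twT N) (fun x => θ (topOf x) x)) hbd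
    have hlu : lev u = j := by
      rcases huni u hzu with h | h
      · rw [h]; exact hlx
      · rw [h]; exact hlx'
    have huY : u ∉ twY j N := by
      intro h
      have := (mem_twY.mp h).2.1
      omega
    have huR : u ∉ unnat N := W.low hlu.le
    rw [thX_not huY] at hh
    have h5 : θ (topOf u) u = lev u - 1 := by
      rcases W.cases huR with hF | hI
      · exact hF.th
      · exfalso
        have h6 := hI.two (k := 1) le_rfl (by omega)
        rcases huni u hzu with h | h
        · rw [h, hnx 1 (by omega)] at h6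
          omega
        · rw [h, hnx' 1 (by omega)] at h6
          omega
    rw [h5, hlu] at hh
    show h2 j N θ z = j
    rw [show h2 j N θ z = _ from hh]
    omega
  · intro k hk hkj
    have h6 := nab_le_add huni (k := k) (by omega)
    rw [hnx k hkj, hnx' k hkj] at h6
    have h7 := rect_two_le_nab H h0 h1 hz hzx.le (Or.inr (Or.inr ⟨hx, Or.inl (by rw [hcx])⟩)) hk
      (by omega)
    omega

theorem W1.rt_cst (W : W1 r j N b θ) {z : P} (hl : lev z = j + 1) (hR : Rt j N b z) :
    cst 1 (h2 j N θ) z = j ^ 2 := by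
  obtain ⟨h3, h4⟩ := W.rt_data hl hR
  have hj := W.two_le
  rw [cst_eq, h3, hl, Finset.sum_range_succ]
  have h5 : ∑ k ∈ range (j + 1), min j (k - 1) * nab k z = ∑ k ∈ range (1 + (j - 1) + 1),
      (k - 1) * 2 := by
    rw [show 1 + (j - 1) + 1 = j + 1 by omega]
    refine Finset.sum_congr rfl fun k hk => ?_
    rw [mem_range] at hk
    rcases Nat.eq_zero_or_pos k with h0 | h0
    · subst h0
      simp
    · rw [h4 k h0 (by omega), Nat.min_eq_right (by omega)]
  rw [h5, sum_two, ← hl, nab_self, hl, Nat.add_sub_cancel, Nat.min_self]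
  obtain ⟨i, rfl⟩ : ∃ i, j = i + 1 := ⟨j - 1, by omega⟩
  rw [Nat.add_sub_cancel]
  ring

theorem W1.rt_nst (W : W1 r j N b θ) {z : P} (hl : lev z = j + 1) (hR : Rt j N b z) :
    nst 1 (h2 j N θ) z = 2 * j := by
  obtain ⟨h3, h4⟩ := W.rt_data hl hR
  rw [nst_eq, h3, Finset.sum_congr rfl (g := fun _ => 2)]
  · simp [Nat.mul_comm]
  · intro k hk
    rw [mem_range] at hk
    exact h4 _ (by omega) (by omega)

/-- no rotation -/
theorem W1.no_rt (W : W1 r j N b θ) {z : P} (hl : lev z = j + 1) (hR : Rt j N b z) : False := by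
  classical
  have hj := W.two_le
  have F := W.farT
  have hrt : ∀ y ∈ bdR (r2 j N), lev y = j + 1 → Rt j N b y := by
    intro y hy hly
    have h3 := mem_sdiff.mp (mem_filter.mp hy).1
    exact W.rt_of h3.1 hly h3.2
  have hcost : ∀ y ∈ bdR (r2 j N), j ^ 2 ≤ cst 1 (h2 j N θ) y := by
    intro y hy
    rcases W.bd hy with h | h
    · exact (W.rt_cst h (hrt y hy h)).ge
    · omega
  have hd := F.dvd_lead (n := j ^ 2) (by omega) hcost
  have hZ := dvd_Z W.gt.H.gauss 1 (j ^ 2)
  set T := (bdR (r2 j N)).filter (fun z => cst 1 (h2 j N θ) z = j ^ 2) with hT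
  have hTr : ∀ y ∈ T, lev y = j + 1 ∧ Rt j N b y := by
    intro y hy
    rw [hT, mem_filter] at hy
    rcases W.bd hy.1 with h | h
    · exact ⟨h, hrt y hy.1 h⟩
    · omega
  have hTe : ∀ y ∈ T, nab 1 y = 2 ∧ nab (1 + h2 j N θ y) y = 1 := by
    intro y hy
    obtain ⟨h3, h4⟩ := hTr y hy
    obtain ⟨h5, h6⟩ := W.rt_data h3 h4
    refine ⟨h6 1 le_rfl (by omega), ?_⟩
    rw [h5, Nat.add_comm, ← h3]
    exact nab_self
  have hzT : z ∈ T := by
    rw [hT, mem_filter]
    exact ⟨W.rt_bd hl hR, W.rt_cst hl hR⟩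
  have hcard : 2 ≤ (lv P 1).card := by
    have h3 := (hTe z hzT).1
    unfold nab at h3
    rw [← h3]
    exact Finset.card_filter_le _ _
  have hs := sign_sum_of_dvd T hZ hd (c0 := (lv P 1).card - 1) (by omega) (by
    intro y hy
    obtain ⟨h3, h4⟩ := hTe y hy
    rw [h3, h4]
    omega)
  have hTf : T.filter (fun y => (lv P 1).card - 1 + nab 1 y =
      (lv P 1).card + nab (1 + h2 j N θ y) y) = T := by
    refine Finset.filter_true_of_mem fun y hy => ?_
    obtain ⟨h3, h4⟩ := hTe y hy
    rw [h3, h4]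
    omega
  rw [hTf, Finset.sum_congr rfl (g := fun _ => (1 : ℤ))] at hs
  · rw [Finset.sum_const, nsmul_eq_mul, mul_one] at hs
    have : T.card = 0 := by exact_mod_cast hs
    rw [Finset.card_eq_zero] at this
    rw [this] at hzT
    exact absurd hzT (Finset.notMem_empty z)
  · intro y hy
    obtain ⟨h3, h4⟩ := hTr y hy
    rw [W.rt_nst h3 h4, pow_mul]
    norm_num

section Final

variable {lo hi : Tops P → ℕ → ℕ} {e : Tops P → ℕ → ℕ → P}

/-- the context from the strips -/
theorem exists_W1 (h : Win.GoodTo P r j) (hj : 2 ≤ j)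
    (hno : ∀ z : P, lev z = j + 1 → ¬ Hul.Jn z)
    (C : ∀ t : Tops P, Cp.Comp j (t : P) (lo t) (hi t) (e t))
    (hT : ∀ t : Tops P, lo t 1 = hi t 1 ∨ RectShape j (lo t) (hi t)) :
    ∃ N θ, W1 r j N (fun t => hi t 1 - lo t 1 + 1) θ := by
  choose N θ hty using fun t => exists_type h.H h.good (C t) (i := 1) (by omega)
    ((hT t).elim Or.inl fun h => Or.inr (Or.inl h))
  refine ⟨N, θ, h, hj, hno, hty, ?_, ?_⟩
  · intro t hNt x z hxt hlx hx2 hzx honly
    have hne : lo t 1 ≠ hi t 1 := by
      intro heq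
      have h1 := hty t
      rw [heq, Nat.sub_self] at h1
      rcases h1 with ⟨h1, h2, h3, h4, h5, h6⟩ | ⟨Nc, co, h0, h1, h2, h4⟩ |
        ⟨Nc, co, h0, h1, h2, h3, h4, h5⟩
      · exact hNt h1
      · have := h0.b_two
        omega
      · omega
    obtain ⟨i, rfl⟩ : ∃ i, j = i + 1 := ⟨j - 1, by omega⟩
    exact rectShape_no_pendant h (by omega) t.2 (C t) ((hT t).resolve_left hne) hlx hxt hx2 hzx
      honly
  · exact (card_level h.H h.good C (i := 1) (by omega)).symm

/-- two covers of a natural element of a rectangle-like chart have a common cover -/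
lemma natR_two_covers {t : P} {Nc : Finset P} {co : P → ℕ × ℕ}
    (C : Chart t (fun _ => True) Nc co) (H : Gr P r) {x x' z : P} (hx : x ∈ Nc) (hx' : x' ∈ Nc)
    (hzx : z ⋖ x) (hzx' : z ⋖ x') (hne : x ≠ x') (hz : z ∈ natR Nc co) :
    ∃ p, x ⋖ p ∧ x' ⋖ p := by
  have hcl := C.lev x hx
  have hcl' := C.lev x' hx'
  have hlx := (H.covBy_iff.mp hzx).2
  have hlx' := (H.covBy_iff.mp hzx').2
  have key : ∀ (co : P → ℕ × ℕ), Chart t (fun _ => True) Nc co →
      z ∉ junk (fun _ => True) Nc co := by
    intro co C hzJ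
    have hcl := C.lev x hx
    have hcl' := C.lev x' hx'
    obtain ⟨x1, H1, hz1⟩ := mem_junk.mp hzJ
    rw [mem_jset] at hz1
    have h1 : ∀ y, z ⋖ y → y = x1 ∨ y < x1 := by
      intro y hy
      rcases hz1.2 y hy.1.le with h | h
      · exact eq_or_lt_of_le h
      · rcases eq_or_lt_of_le h with h | h
        · exact Or.inl h.symm
        · exact absurd h (hy.2 hz1.1)
    rcases h1 x hzx with h | h
    · rcases h1 x' hzx' with h' | h'
      · exact hne (h.trans h'.symm)
      · have := lev_strictAnti h'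
        rw [← h] at this
        omega
    · rcases h1 x' hzx' with h' | h'
      · have := lev_strictAnti h
        rw [← h'] at this
        omega
      · have e1 := (H1.tail C hx h).1
        have e2 := (H1.tail C hx' h').1
        exact hne (C.inj x hx x' hx' (Prod.ext (by omega) (by omega)))
  rw [mem_natR] at hz
  rcases hz with h | h | h
  · have e1 := (chart_cov C H h hx).mp hzx
    have e2 := (chart_cov C H h hx').mp hzx'
    have hcne : co x ≠ co x' := fun h => hne (C.inj x hx x' hx' h)
    have hin : 1 ≤ (co z).1 ∧ 1 ≤ (co z).2 := by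
      rcases e1 with e1 | e1
      · rcases e2 with e2 | e2
        · exact absurd (Prod.ext (by omega) (by omega)) hcne
        · omega
      · rcases e2 with e2 | e2
        · omega
        · exact absurd (Prod.ext (by omega) (by omega)) hcne
    obtain ⟨p, hp, hcp⟩ := C.low z h ((co z).1 - 1, (co z).2 - 1)
      ⟨Nat.sub_le _ _, Nat.sub_le _ _⟩ trivial
    refine ⟨p, ?_, ?_⟩
    · rw [chart_cov C H hx hp, hcp]
      rcases e1 with e1 | e1
      · exact Or.inr ⟨by simp only; omega, by simp only; omega⟩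
      · exact Or.inl ⟨by simp only; omega, by simp only; omega⟩
    · rw [chart_cov C H hx' hp, hcp]
      rcases e2 with e2 | e2
      · exact Or.inr ⟨by simp only; omega, by simp only; omega⟩
      · exact Or.inl ⟨by simp only; omega, by simp only; omega⟩
  · exact absurd h (key co C)
  · exact absurd h (key _ C.swap)

/-- **No rotation in a rectangle-like component.**  All levels less than `j` are good, `2 ≤ j`, no
element of level `j + 1` is below two maximal elements, every strip is light at level `1` or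
rectangle-like down to level `j`.  Then two covers of an element of level `j + 1` below a
rectangle-like top are neighbours: they have exactly one common cover. -/
theorem rect_no_rotation (h : Win.GoodTo P r j) (hj : 2 ≤ j)
    (hno : ∀ z : P, lev z = j + 1 → ¬ Hul.Jn z)
    (C : ∀ t : Tops P, Cp.Comp j (t : P) (lo t) (hi t) (e t))
    (hT : ∀ t : Tops P, lo t 1 = hi t 1 ∨ RectShape j (lo t) (hi t)) {t : Tops P}
    (ht : lo t 1 ≠ hi t 1) {z x x' : P} (hz : lev z = j + 1) (hzt : z ≤ (t : P)) (hzx : z ⋖ x)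
    (hzx' : z ⋖ x') (hne : x ≠ x') : ucv x x' = 1 := by
  classical
  obtain ⟨N, θ, W⟩ := exists_W1 h hj hno C hT
  have H := h.H
  have HN := W.natSys
  obtain ⟨i, rfl⟩ : ∃ i, j = i + 1 := ⟨j - 1, by omega⟩
  rcases (Win.near_level' h (by omega)).1 z x x' hz hzx hzx' hne with h1 | ⟨h1, h2, h3⟩
  · exact h1
  exfalso
  have hzt' : topOf z = t := by
    by_contra hcon
    exact hno z hz ⟨topOf z, t, (topOf z).2, t.2, fun h => hcon (Subtype.ext h), le_topOf z, hzt⟩
  have hnc : ∀ y : P, y ∉ unnat N → topOf y = t → y ⋖ x → y ⋖ x' → False := by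
    intro y hy hyt hyx hyx'
    have hyN := HN.mem_iff.mpr ⟨hy, hyt⟩
    rcases W.typ t with ⟨g1, g2, g3, g4, g5, g6⟩ | ⟨Nc, co, g0, g1, g2, g4⟩ |
      ⟨Nc, co, g0, g1, g2, g3, g4, g5⟩
    · have e1 := (C t).lo_le 1 (by omega)
      omega
    · rw [g1] at hyN
      have hlx := (H.covBy_iff.mp hzx).2
      have hlx' := (H.covBy_iff.mp hzx').2
      have hxN : ∀ x : P, z ⋖ x → x ∈ Nc := by
        intro x hzx
        have hlx := (H.covBy_iff.mp hzx).2
        refine g0.strip (mem_lowPart.mpr ⟨?_, by omega⟩)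
        have h5 : topOf x = t := by
          by_contra hcon
          exact hno z hz ⟨topOf x, t, (topOf x).2, t.2, fun h => hcon (Subtype.ext h),
            hzx.1.le.trans (le_topOf x), hzt⟩
        rw [← h5]
        exact le_topOf x
      obtain ⟨p, hp, hp'⟩ := natR_two_covers g0.chart H (hxN x hzx) (hxN x' hzx') hyx hyx' hne hyN
      unfold ucv at h3
      rw [Finset.card_eq_zero] at h3
      have : p ∈ (univ.filter (fun y : P => x ⋖ y ∧ x' ⋖ y)) := by simp [hp, hp']
      rw [h3] at this
      exact absurd this (Finset.notMem_empty p)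
    · omega
  have hzR : z ∈ unnat N := by
    by_contra hcon
    exact hnc z hcon hzt' hzx hzx'
  have hzY : z ∉ twY (i + 1) N := by
    intro hY
    refine hnc _ (W.twSys.nat z hY) ?_ ((W.twSys.cov hY).mpr hzx) ((W.twSys.cov hY).mpr hzx')
    rw [W.twSys.cp z hY, hzt']
  exact W.no_rt hz (W.rt_of hzR hz hzY)

end Final

end Pool.Agent.GaussPoset
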