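import Pool.Agent.W_448rr_h67.RrF

/-!
# Which letters are needed for an inner element with two lost edges (MP_448cb3_co)

An inner element of the first bad level which shares no child with its two neighbours has a pendant
(S6), hence the strip has the letters C, O at one end (S5).  Consequences for the patterns (7) (T) and
(8) (Q) of `PcPat`, and for stair-like components.
-/

namespace Pool.Agent.GaussPoset

set_option linter.unusedSectionVars false

open Finset

universe u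

variable {P : Type u} [Fintype P] [PartialOrder P] [DecidableEq P] {r i : ℕ}

/-- the position of a pendant below a double -/
lemma pen_letters {lo hi : ℕ → ℕ} {x : ℕ → ℕ → P} (hS : Win.S5c lo hi x i) {a : ℕ}
    (h1 : lo i < a) (h2 : a ≤ hi i) (hp : (Win.pen (x (i + 1) a)).card = 1) :
    (Win.LCO lo hi i ∧ (a = lo i + 1 ∨ a = lo i + 2)) ∨
      (Win.RCO lo hi i ∧ (a = hi i ∨ a + 1 = hi i)) := by
  rcases hS with ⟨-, -, g⟩ | ⟨g1, -, b, hb, g⟩ | ⟨g1, -, b, hb, g⟩
  · rw [g a h1 h2] at hp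
    omega
  · rw [g a h1 h2] at hp
    split_ifs at hp with hab
    left
    refine ⟨g1, ?_⟩
    omega
  · rw [g a h1 h2] at hp
    split_ifs at hp with hab
    right
    refine ⟨g1, ?_⟩
    omega

/-- two neighbouring lost edges occur only in the patterns (7) and (8) -/
lemma pcPat_two {m : ℕ} {c : ℕ → ℤ} {β : ℤ} (h : Win.PcPat m c β) {k : ℕ} (hk : k + 1 < m)
    (h1 : c k = -1) (h2 : c (k + 1) = -1) :
    (m = 2 ∧ β = 2 ∧ k = 0) ∨ (m = 6 ∧ β = 0 ∧ (k = 1 ∨ k = 3)) := by
  rcases h with ⟨e, f⟩ | ⟨e1, e2, e3, f⟩ | ⟨e1, e2, e3, f⟩ | ⟨e1, e2, e3, e4, f⟩ |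
    ⟨e1, e2, e3, e4, f⟩ | ⟨e1, e2, e3, e4, e5, e6, f⟩ | ⟨e1, e2, e3, e4⟩ |
    ⟨e1, e2, e3, e4, e5, e6, f⟩
  · rw [f k (by omega)] at h1
    omega
  · rw [f (k + 1) (by omega) (by omega)] at h2
    omega
  · rw [f k (by omega)] at h1
    omega
  · rcases Nat.eq_zero_or_pos k with h0 | h0
    · subst h0
      omega
    · rw [f (k + 1) (by omega) (by omega)] at h2
      omega
  · rcases Nat.lt_or_ge (k + 2) m with h0 | h0
    · rw [f k h0] at h1
      omega
    · have : k + 1 = m - 1 := by omega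
      rw [this, e3] at h2
      omega
  · rcases Nat.eq_zero_or_pos k with h0 | h0
    · subst h0
      omega
    · rcases Nat.lt_or_ge (k + 3) m with h3 | h3
      · rw [f (k + 1) (by omega) (by omega)] at h2
        omega
      · rcases Nat.lt_or_ge (k + 2) m with h4 | h4
        · have h5 : k = m - 3 := by omega
          rw [f k (by omega) h4] at h1
          omega
        · have : k + 1 = m - 1 := by omega
          rw [this, e6] at h2
          omega
  · exact Or.inl ⟨e1, e2, by omega⟩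
  · right
    refine ⟨e1, e2, ?_⟩
    have hk5 : k = 0 ∨ k = 1 ∨ k = 2 ∨ k = 3 ∨ k = 4 := by omega
    rcases hk5 with rfl | rfl | rfl | rfl | rfl
    · omega
    · exact Or.inl rfl
    · rcases f with f | f
      · have := f.2
        simp only [Nat.reduceAdd] at h2
        omega
      · have := f.1
        omega
    · exact Or.inr rfl
    · simp only [Nat.reduceAdd] at h2
      omega

section Letters

variable {t : P} {lo hi : ℕ → ℕ} {x : ℕ → ℕ → P} {c : ℕ → ℤ} {β : ℤ}

/-- pattern (7), T: both ends are open at the last step, two elements before, letters C, O before -/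
theorem T_letters (h : Win.GoodTo P r (i + 1)) (hi1 : 1 ≤ i) (ht : lev t = 0)
    (C : Win.Comp P t (i + 1) lo hi x) (hm : hi (i + 1) - lo (i + 1) = 2)
    (hs : (Win.uc (x (i + 1) (lo (i + 1)))).card = 1 ∧
      (Win.uc (x (i + 1) (hi (i + 1)))).card = 1)
    (hp : (Win.pen (x (i + 1) (lo (i + 1) + 1))).card = 1) :
    lo (i + 1) = lo i ∧ hi (i + 1) = hi i + 1 ∧ hi i = lo i + 1 ∧
      (Win.LCO lo hi i ∨ Win.RCO lo hi i) := by
  have f1 := C.lo_le i (by omega)
  have f2 := C.lo_ge i (by omega)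
  have f3 := C.hi_le i (by omega)
  have f4 := C.hi_ge i (by omega)
  have g1 := (C.uc_two h ht (k := i) (by omega) (a := lo (i + 1)) le_rfl (by omega)).mpr.mt
    (by omega)
  have g2 := (C.uc_two h ht (k := i) (by omega) (a := hi (i + 1)) (by omega) le_rfl).mpr.mt
    (by omega)
  have e1 : lo (i + 1) = lo i := by
    by_contra hcon
    exact g1 ⟨by omega, by omega⟩
  have e2 : hi (i + 1) = hi i + 1 := by
    by_contra hcon
    exact g2 ⟨by omega, by omega⟩
  refine ⟨e1, e2, by omega, ?_⟩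
  rcases pen_letters ((Win.near_level' h hi1).2 t lo hi x ht C) (a := lo (i + 1) + 1) (by omega)
    (by omega) hp with ⟨g, -⟩ | ⟨g, -⟩
  · exact Or.inl g
  · exact Or.inr g

/-- pattern (8), Q: letters C, O, O at the end which has the pendant -/
theorem Q_letters (h : Win.GoodTo P r (i + 1)) (hi1 : 1 ≤ i) (ht : lev t = 0)
    (C : Win.Comp P t (i + 1) lo hi x) (hm : hi (i + 1) - lo (i + 1) = 6) {k : ℕ}
    (hk : k = 2 ∨ k = 4) (hp : (Win.pen (x (i + 1) (lo (i + 1) + k))).card = 1) :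
    (k = 2 ∧ Win.LCO lo hi i ∧ lo (i + 1) = lo i) ∨
      (k = 4 ∧ Win.RCO lo hi i ∧ hi (i + 1) = hi i + 1) := by
  have f1 := C.lo_le i (by omega)
  have f2 := C.lo_ge i (by omega)
  have f3 := C.hi_le i (by omega)
  have f4 := C.hi_ge i (by omega)
  rcases pen_letters ((Win.near_level' h hi1).2 t lo hi x ht C) (a := lo (i + 1) + k) (by omega)
    (by omega) hp with ⟨g, g'⟩ | ⟨g, g'⟩
  · left
    exact ⟨by omega, g, by omega⟩
  · right
    exact ⟨by omega, g, by omega⟩

end Letters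

section Stair

open Cp

variable {t : P} {lo hi : ℕ → ℕ} {e : ℕ → ℕ → P}

/-- letters of a stair-like strip -/
lemma stairShape_co (C : Comp (i + 1) t lo hi e) (S : StairShape (i + 1) lo hi) :
    ¬ Win.LCO lo hi i ∧ (Win.RCO lo hi i → hi (i + 1) = hi i) := by
  constructor
  · rintro ⟨h1, h2, h3, h4⟩
    have h5 := S.lo (i - 1) (by omega)
    rw [Nat.sub_add_cancel (by omega)] at h5
    omega
  · rintro ⟨h1, h2, h3, h4⟩
    rw [S.hi (i + 1) le_rfl]
    rw [S.hi (i - 1) (by omega), S.hi (i - 2) (by omega)] at h2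
    rw [S.hi i (by omega)]
    omega

/-- **S6 for a stair-like component** (fold on the side of `hi`): neither T nor Q. -/
theorem stair_pieces (h : Win.GoodTo P r (i + 1)) (hi1 : 1 ≤ i) (hr : i + 2 ≤ r)
    (hno : ∀ z : P, lev z = i + 2 → ¬ Hul.Jn z) (ht : lev t = 0) (C : Comp (i + 1) t lo hi e)
    (S : StairShape (i + 1) lo hi) :
    ∃ (c : ℕ → ℤ) (β : ℤ), Win.PcPat (hi (i + 1) - lo (i + 1)) c β ∧ (β = 0 ∨ β = 1) ∧
      (∀ a b, lo (i + 1) ≤ a → a < b → b ≤ hi (i + 1) →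
        (dcv (e (i + 1) a) (e (i + 1) b) : ℤ) - ucv (e (i + 1) a) (e (i + 1) b) =
          if b = a + 1 then c (a - lo (i + 1)) else
          if a = lo (i + 1) ∧ b = hi (i + 1) then β else 0) ∧
      (β ≠ 0 → lo (i + 1) = lo i ∧ hi (i + 1) = hi i + 1 ∧
        (Win.uc (e (i + 1) (lo (i + 1)))).card = 1 ∧
        (Win.uc (e (i + 1) (hi (i + 1)))).card = 1) ∧
      (∀ a, lo (i + 1) < a → a < hi (i + 1) →
        ¬ (c (a - 1 - lo (i + 1)) = -1 ∧ c (a - lo (i + 1)) = -1)) := by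
  obtain ⟨c, β, h1, h2, h3, h4⟩ := Win.S6_pieces h hi1 hr hno ht C.toWin
  obtain ⟨n1, n2⟩ := stairShape_co C S
  have f1 := C.toWin.lo_le i (by omega)
  have f2 := C.toWin.lo_ge i (by omega)
  have f3 := C.toWin.hi_le i (by omega)
  have f4 := C.toWin.hi_ge i (by omega)
  have f5 := C.lo_le i (by omega)
  have hends : β ≠ 0 → lo (i + 1) = lo i ∧ hi (i + 1) = hi i + 1 ∧
        (Win.uc (e (i + 1) (lo (i + 1)))).card = 1 ∧
        (Win.uc (e (i + 1) (hi (i + 1)))).card = 1 := by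
    intro hβ
    obtain ⟨g1, g2⟩ := h3 hβ
    have hm : 2 ≤ hi (i + 1) - lo (i + 1) := by
      rcases h1 with ⟨e, -⟩ | ⟨e, -⟩ | ⟨e, -⟩ | ⟨e, -⟩ | ⟨e, -⟩ | ⟨e, -⟩ | ⟨e, -⟩ | ⟨e, -⟩
      · exact absurd e hβ
      all_goals omega
    have g3 := (C.toWin.uc_two h ht (k := i) (by omega) (a := lo (i + 1)) le_rfl
      (by omega)).mpr.mt (by omega)
    have g4 := (C.toWin.uc_two h ht (k := i) (by omega) (a := hi (i + 1)) (by omega)
      le_rfl).mpr.mt (by omega)
    refine ⟨?_, ?_, g1, g2⟩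
    · by_contra hcon
      exact g3 ⟨by omega, by omega⟩
    · by_contra hcon
      exact g4 ⟨by omega, by omega⟩
  have hno2 : ∀ a, lo (i + 1) < a → a < hi (i + 1) →
      ¬ (c (a - 1 - lo (i + 1)) = -1 ∧ c (a - lo (i + 1)) = -1) := by
    rintro a ha1 ha2 ⟨hc1, hc2⟩
    have hp := h4 a ha1 ha2 hc1 hc2
    have hpl := pen_letters ((Win.near_level' h hi1).2 t lo hi e ht C.toWin) (a := a) (by omega)
      (by omega) hp
    have hR : Win.RCO lo hi i ∧ (a = hi i ∨ a + 1 = hi i) := hpl.resolve_left fun g => n1 g.1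
    have hh := n2 hR.1
    rcases pcPat_two h1 (k := a - 1 - lo (i + 1)) (by omega) hc1
      (by rw [show a - 1 - lo (i + 1) + 1 = a - lo (i + 1) by omega]; exact hc2) with
      ⟨g1, g2, g3⟩ | ⟨g1, g2, g3⟩
    · have := (hends (by omega)).2.1
      omega
    · omega
  refine ⟨c, β, h1, ?_, h2, hends, hno2⟩
  rcases h1 with ⟨e, -⟩ | ⟨-, e, -⟩ | ⟨-, e, -⟩ | ⟨-, e, -⟩ | ⟨-, e, -⟩ | ⟨-, e, -⟩ |
    ⟨e1, e2, e3, e4⟩ | ⟨-, e, -⟩
  · exact Or.inl e
  · exact Or.inr e
  · exact Or.inr e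
  · exact Or.inl e
  · exact Or.inl e
  · exact Or.inl e
  · exfalso
    refine hno2 (lo (i + 1) + 1) (by omega) (by omega) ⟨?_, ?_⟩
    · rw [show lo (i + 1) + 1 - 1 - lo (i + 1) = 0 by omega]; exact e3
    · rw [show lo (i + 1) + 1 - lo (i + 1) = 1 by omega]; exact e4
  · exact Or.inl e

end Stair

end Pool.Agent.GaussPoset
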