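import Pool.Agent.W_448rr_h67.RrA
import Pool.Agent.W_448fw_h5.FwW
import Pool.Agent.W_448cp_h96.CE
import Pool.Agent.W_448cr_h63.CH

/-!
# Rectangle-like components at window 1 (MP_448cb3_co), local lemmas
-/

namespace Pool.Agent.GaussPoset

set_option linter.unusedSectionVars false

open Polynomial Finset

universe u

variable {P : Type u} [Fintype P] [PartialOrder P] [DecidableEq P] {r j : ℕ}

section Shape

open Cp

variable {i : ℕ} {t : P} {lo hi : ℕ → ℕ} {e : ℕ → ℕ → P}

/-- no letters C, O at an end of a rectangle-like strip -/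
lemma rectShape_no_co (C : Comp (i + 1) t lo hi e) (S : RectShape (i + 1) lo hi) :
    ¬ Win.LCO lo hi i ∧ ¬ Win.RCO lo hi i := by
  constructor
  · rintro ⟨h1, h2, h3, h4⟩
    have h5 := S.lo (i - 1) (by omega)
    rw [Nat.sub_add_cancel (by omega)] at h5
    omega
  · rintro ⟨h1, h2, h3, h4⟩
    have h5 := S.hi (i - 1) (by omega)
    rw [Nat.sub_add_cancel (by omega)] at h5
    have h6 := C.hi_le (k := i - 2) (by omega)
    omega

/-- no pendants below the doubles of the last good level of a rectangle-like strip -/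
theorem rectShape_no_pendant (h : Win.GoodTo P r (i + 1)) (hi1 : 1 ≤ i) (ht : lev t = 0)
    (C : Comp (i + 1) t lo hi e) (S : RectShape (i + 1) lo hi) {x z : P} (hx : lev x = i + 1)
    (hxt : x ≤ t) (hx2 : (Win.uc x).card = 2) (hzx : z ⋖ x) (honly : ∀ y, z ⋖ y → y = x) :
    False := by
  classical
  obtain ⟨n1, n2⟩ := rectShape_no_co C S
  obtain ⟨s, h1, h2, h3⟩ := C.surj x hxt (by omega)
  rw [hx] at h1 h2 h3
  have hS := (Win.near_level' h hi1).2 t lo hi e ht C.toWin
  have h4 := C.toWin.uc_two h ht (k := i) (by omega) h1 h2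
  rw [h3] at h4
  have h5 := h4.mp hx2
  have h6 : (Win.uc z).card = 1 := by
    rw [Finset.card_eq_one]
    refine ⟨x, ?_⟩
    ext y
    rw [Win.mem_uc, mem_singleton]
    exact ⟨honly y, fun h => h ▸ hzx⟩
  have h7 : z ∈ Win.pen (e (i + 1) s) := by
    rw [Win.mem_pen, h3]
    exact ⟨hzx, h6⟩
  rcases hS with ⟨-, -, h8⟩ | ⟨h8, -⟩ | ⟨h8, -⟩
  · have h9 := h8 s h5.1 h5.2
    rw [Finset.card_eq_zero] at h9
    rw [h9] at h7
    exact absurd h7 (Finset.notMem_empty _)
  · exact n1 h8
  · exact n2 h8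

end Shape

/-- covers are determined by the strict up-set -/
lemma cov_of_up {x z w : P} (h : ∀ y, x < y ↔ z < y) : x ⋖ w ↔ z ⋖ w := by
  constructor
  · intro h1
    exact ⟨(h w).mp h1.1, fun v hv1 hv2 => h1.2 ((h v).mpr hv1) hv2⟩
  · intro h1
    exact ⟨(h w).mpr h1.1, fun v hv1 hv2 => h1.2 ((h v).mp hv1) hv2⟩

/-- elements with the same covers have the same strict up-set -/
lemma up_of_cov {x z : P} (h : ∀ w, x ⋖ w ↔ z ⋖ w) : ∀ y, x < y ↔ z < y := by
  intro y
  constructor
  · intro h1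
    obtain ⟨v, hv, hvy⟩ := Hul.exists_cov h1
    exact ((h v).mp hv).1.trans_le hvy
  · intro h1
    obtain ⟨v, hv, hvy⟩ := Hul.exists_cov h1
    exact ((h v).mpr hv).1.trans_le hvy

section ChartLemmas

variable {t : P} {N : Finset P} {co : P → ℕ × ℕ}

/-- an inner cell has two covers -/
lemma chart_inner_uc (C : Chart t (fun _ => True) N co) (H : Gr P r) {x : P} (hx : x ∈ N)
    (h1 : 1 ≤ (co x).1) (h2 : 1 ≤ (co x).2) : (Win.uc x).card = 2 := by
  classical
  obtain ⟨y1, hy1, hc1⟩ := C.low x hx ((co x).1 - 1, (co x).2)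
    ⟨Nat.sub_le _ _, le_rfl⟩ trivial
  obtain ⟨y2, hy2, hc2⟩ := C.low x hx ((co x).1, (co x).2 - 1)
    ⟨le_rfl, Nat.sub_le _ _⟩ trivial
  have e1 : x ⋖ y1 := by
    rw [chart_cov C H hx hy1, hc1]
    exact Or.inl ⟨by simp only; omega, rfl⟩
  have e2 : x ⋖ y2 := by
    rw [chart_cov C H hx hy2, hc2]
    exact Or.inr ⟨rfl, by simp only; omega⟩
  have hne : y1 ≠ y2 := by
    rintro rfl
    rw [hc1] at hc2
    simp only [Prod.mk.injEq] at hc2
    omega
  have h3 : ({y1, y2} : Finset P) ⊆ Win.uc x := by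
    intro y hy
    rw [mem_insert, mem_singleton] at hy
    rcases hy with rfl | rfl
    · exact Win.mem_uc.mpr e1
    · exact Win.mem_uc.mpr e2
  have h4 := Finset.card_le_card h3
  rw [Finset.card_pair hne] at h4
  have := Win.uc_card_le H x
  omega

/-- two elements on every level `1 ≤ k < lev x` above an inner cell -/
lemma chart_inner_nab (C : Chart t (fun _ => True) N co) {x : P} (hx : x ∈ N)
    (h1 : 1 ≤ (co x).1) (h2 : 1 ≤ (co x).2) {k : ℕ} (hk : 1 ≤ k) (hkx : k < lev x) :
    2 ≤ nab k x := by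
  have hl := C.lev x hx
  rw [nab_chart C hx k]
  have := card_cellsAt_true (l := k) (p := co x) (by omega)
  omega

/-- an element with exactly the covers `(0, j)` and `(j, 0)` is not in the natural set -/
lemma chart_rot (C : Chart t (fun _ => True) N co) (H : Gr P r) (hj : 2 ≤ j) {x x' z : P}
    (hx : x ∈ N) (hx' : x' ∈ N) (hcx : co x = (0, j)) (hcx' : co x' = (j, 0)) (hzx : z ⋖ x)
    (hzx' : z ⋖ x') : z ∉ natR N co := by
  intro hz
  rw [mem_natR] at hz
  have key : ∀ (co : P → ℕ × ℕ) (x x' : P), Chart t (fun _ => True) N co → x ∈ N → x' ∈ N →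
      co x = (0, j) → co x' = (j, 0) → z ⋖ x → z ⋖ x' → z ∉ junk (fun _ => True) N co := by
    intro co x x' C hx hx' hcx hcx' hzx hzx' hzJ
    obtain ⟨x1, H1, hz1⟩ := mem_junk.mp hzJ
    have e1 := H1.lt x' hx' (by rw [hcx']; simp only; omega)
    rw [hcx'] at e1
    simp only at e1
    rcases (mem_jset.mp hz1).2 x' hzx'.1.le with h | h
    · have := (C.le_iff x' hx' x1 H1.mem).mp h
      have h2 : (co x1).2 ≤ (co x').2 := this.2
      rw [hcx'] at h2
      simp only at h2
      omega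
    · have := (C.le_iff x1 H1.mem x' hx').mp h
      have h2 : (co x').1 ≤ (co x1).1 := this.1
      rw [hcx', H1.fst] at h2
      simp only at h2
      omega
  rcases hz with h | h | h
  · have e1 := (chart_cov C H h hx).mp hzx
    have e2 := (chart_cov C H h hx').mp hzx'
    rw [hcx] at e1
    rw [hcx'] at e2
    unfold Prd at e1 e2
    simp only at e1 e2
    omega
  · exact key co x x' C hx hx' hcx hcx' hzx hzx' h
  · refine key (swp co) x' x C.swap hx' hx ?_ ?_ hzx' hzx h
    · unfold swp; rw [hcx']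
    · unfold swp; rw [hcx]

end ChartLemmas

end Pool.Agent.GaussPoset
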