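import Pool.Agent.W_448rr_h67.RrB

/-!
# Rectangle-like components at window 1 (MP_448cb3_co): natural elements and twins
-/

namespace Pool.Agent.GaussPoset

set_option linter.unusedSectionVars false

open Polynomial Finset

universe u

variable {P : Type u} [Fintype P] [PartialOrder P] [DecidableEq P] {r j : ℕ}
  {N : Tops P → Finset P} {b : Tops P → ℕ} {θ : Tops P → P → ℕ}

/-- window 1: all strips are light or rectangle-like -/
structure W1 (r j : ℕ) (N : Tops P → Finset P) (b : Tops P → ℕ) (θ : Tops P → P → ℕ) : Prop where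
  gt : Win.GoodTo P r j
  two_le : 2 ≤ j
  nojn : ∀ z : P, lev z = j + 1 → ¬ Hul.Jn z
  typ : ∀ t, TopType j 1 t (b t) (N t) (θ t)
  nopen : ∀ t : Tops P, N t ≠ onlyB t → ∀ x z : P, x ≤ (t : P) → lev x = j →
    (Win.uc x).card = 2 → z ⋖ x → ¬ ∀ y, z ⋖ y → y = x
  sum_b : ∑ t, b t = (lv P 1).card

lemma W1.natSys (W : W1 r j N b θ) : NatSys N :=
  (farData_of_types (jt := fun _ => j) W.gt.H.gradedBelow W.typ).1

lemma W1.low (W : W1 r j N b θ) {x : P} (hx : lev x ≤ j) : x ∉ unnat N := by
  intro h
  refine mem_unnat.mp h (topOf x) ?_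
  rcases W.typ (topOf x) with ⟨h1, h2, h3, h4, h5, h6⟩ | ⟨Nc, co, h0, h1, h2, h4⟩ |
    ⟨Nc, co, h0, h1, h2, h3, h4, h5⟩
  · rw [h1]; exact h5 x (le_topOf x) hx
  · rw [h1]; exact mem_natR.mpr (Or.inl (h0.strip (mem_lowPart.mpr ⟨le_topOf x, hx⟩)))
  · omega

lemma W1.lt_lev (W : W1 r j N b θ) {x : P} (hx : x ∈ unnat N) : j < lev x := by
  by_contra hcon
  exact W.low (not_lt.mp hcon) hx

/-- natural elements with full threshold -/
structure Full (N : Tops P → Finset P) (θ : Tops P → P → ℕ) (x : P) : Prop where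
  th : θ (topOf x) x = lev x - 1
  two : ∀ z ∈ unnat N, z ≤ x → ∀ k, 1 ≤ k → k ≤ lev x → 2 ≤ nab k z
  tw : ∀ z ∈ unnat N, ¬ ∀ w, x < w ↔ z < w

/-- inner cells of rectangle-like components -/
def Inner (j : ℕ) (N : Tops P → Finset P) (b : Tops P → ℕ) (θ : Tops P → P → ℕ) (x : P) : Prop :=
  ∃ (Nc : Finset P) (co : P → ℕ × ℕ), RectNat j 1 (topOf x) (b (topOf x)) Nc co ∧
    N (topOf x) = natR Nc co ∧ x ∈ Nc ∧ 1 ≤ (co x).1 ∧ 1 ≤ (co x).2 ∧
    θ (topOf x) x = lev x - 2

/-- junk has no unnatural twins -/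
lemma junk_twin {S : ℕ × ℕ → Prop} {Nc : Finset P} {co : P → ℕ × ℕ} {x z : P}
    (hx : x ∈ junk S Nc co) (h : ∀ w, x < w ↔ z < w) : z ∈ junk S Nc co := by
  obtain ⟨x1, H1, hj⟩ := mem_junk.mp hx
  rw [mem_jset] at hj
  refine mem_junk.mpr ⟨x1, H1, mem_jset.mpr ⟨(h x1).mp hj.1, fun y hy => ?_⟩⟩
  rcases eq_or_lt_of_le hy with h1 | h1
  · left
    rw [← h1]
    exact ((h x1).mp hj.1).le
  · exact hj.2 y ((h y).mpr h1).le

/-- straight cells have no unnatural twins -/
lemma straight_twin (H : Gr P r) {t : Tops P} {i c : ℕ} {Nc : Finset P} {co : P → ℕ × ℕ}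
    (R : RectNat j i t c Nc co) (hNt : N t = natR Nc co) {x u z : P} (hx : x ∈ Nc) (hu : u ∈ Nc)
    (hxu : Prd (co x) (co u)) (hun : ∀ y ∈ Nc, Prd (co x) (co y) → co y = co u)
    (h0 : (co u).1 = 0 ∨ (co u).2 = 0) (hz : z ∈ unnat N) (h : ∀ w, x < w ↔ z < w) : False := by
  have h1 : x ⋖ u := (chart_cov R.chart H hx hu).mpr hxu
  have h2 : z ⋖ u := (cov_of_up h).mp h1
  have h3 := rect_pendant H R hNt hz (x := u) (by rw [hNt]; exact mem_natR.mpr (Or.inl hu)) h2 (by
    intro y hy
    have hy1 : x ⋖ y := (cov_of_up h).mpr hy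
    have hyN := R.chart.up x hx y hy1.le
    exact R.chart.inj y hyN u hu (hun y hyN ((chart_cov R.chart H hx hyN).mp hy1)))
  have := h3.2.2.2
  omega

/-- the two kinds of natural elements -/
theorem W1.cases (W : W1 r j N b θ) {x : P} (hx : x ∉ unnat N) : Full N θ x ∨ Inner j N b θ x := by
  have H := W.gt.H
  have HN := W.natSys
  have hxt : x ∈ N (topOf x) := HN.mem_iff.mpr ⟨hx, rfl⟩
  have hj := W.two_le
  have hT := W.typ (topOf x)
  generalize ht : topOf x = t at hxt hT
  rcases hT with ⟨h1, h2, h3, h4, h5, h6⟩ | ⟨Nc, co, h0, h1, h2, h4⟩ |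
    ⟨Nc, co, h0, h1, h2, h3, h4, h5⟩
  · left
    have hs : ∀ z ∈ unnat N, ∃ s : P, lev s = 0 ∧ z ≤ s ∧ s ≠ t := by
      intro z hz
      have h7 : z ∉ onlyB t := by
        rw [← h1]
        exact mem_unnat.mp hz t
      rw [mem_onlyB] at h7
      push Not at h7
      exact h7
    refine ⟨by rw [ht, h2], ?_, ?_⟩
    · intro z hz hzx k _ hk
      obtain ⟨s, hs1, hs2, hs3⟩ := hs z hz
      exact two_le_nab_join HN H.gradedBelow hxt hzx hs1 hs3 hs2 hk
    · intro z hz h
      obtain ⟨s, hs1, hs2, hs3⟩ := hs z hz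
      have h7 := W.lt_lev hz
      have h8 : z < s := lt_of_le_of_ne hs2 (by rintro rfl; omega)
      exact hs3 (HN.top_eq hxt hs1 ((h s).mpr h8).le)
  · have hb : b t = 2 := by
      have e1 := h0.b_two
      have e2 := h0.b_le
      omega
    by_cases hJ : x ∈ junk (fun _ => True) Nc co ∨ x ∈ junk (fun _ => True) Nc (swp co)
    · left
      refine ⟨?_, ?_, ?_⟩
      · rw [ht, h2]
        unfold thR
        rw [if_pos hJ]
      · intro z hz hzx k hk hkx
        refine rect_two_le_nab H h0 h1 hz hzx ?_ hk hkx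
        rcases hJ with h | h
        · exact Or.inl h
        · exact Or.inr (Or.inl h)
      · intro z hz h
        refine mem_unnat.mp hz t ?_
        rw [h1, mem_natR]
        rcases hJ with h' | h'
        · exact Or.inr (Or.inl (junk_twin h' h))
        · exact Or.inr (Or.inr (junk_twin h' h))
    · have hxN : x ∈ Nc := by
        rw [h1, mem_natR] at hxt
        rcases hxt with h | h | h
        · exact h
        · exact absurd (Or.inl h) hJ
        · exact absurd (Or.inr h) hJ
      have hl := h0.chart.lev x hxN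
      by_cases h7 : (co x).1 = 0 ∨ (co x).2 = 0
      · left
        refine ⟨?_, ?_, ?_⟩
        · rw [ht, h2]
          unfold thR
          rw [if_neg hJ, hb]
          omega
        · intro z hz hzx k hk hkx
          exact rect_two_le_nab H h0 h1 hz hzx (Or.inr (Or.inr ⟨hxN, h7⟩)) hk hkx
        · intro z hz h
          have h8 := W.lt_lev hz
          rw [← lev_eq_of_up h] at h8
          rcases h7 with h7 | h7
          · obtain ⟨u, hu, hcu⟩ := h0.chart.low x hxN (0, (co x).2 - 1)
              ⟨Nat.zero_le _, Nat.sub_le _ _⟩ trivial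
            refine straight_twin H h0 h1 hxN hu ?_ ?_ ?_ hz h
            · rw [hcu]
              exact Or.inr ⟨by simp only; omega, by simp only; omega⟩
            · intro y hy hp
              rw [hcu]
              rcases hp with hp | hp
              · omega
              · exact Prod.ext (by simp only; omega) (by simp only; omega)
            · rw [hcu]
              exact Or.inl rfl
          · obtain ⟨u, hu, hcu⟩ := h0.chart.low x hxN ((co x).1 - 1, 0)
              ⟨Nat.sub_le _ _, Nat.zero_le _⟩ trivial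
            refine straight_twin H h0 h1 hxN hu ?_ ?_ ?_ hz h
            · rw [hcu]
              exact Or.inl ⟨by simp only; omega, by simp only; omega⟩
            · intro y hy hp
              rw [hcu]
              rcases hp with hp | hp
              · exact Prod.ext (by simp only; omega) (by simp only; omega)
              · omega
            · rw [hcu]
              exact Or.inr rfl
      · right
        refine ⟨Nc, co, ?_, ?_, hxN, by omega, by omega, ?_⟩
        · rw [ht]; exact h0
        · rw [ht]; exact h1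
        · rw [ht, h2]
          unfold thR
          rw [if_neg hJ, hb]
          omega
  · omega

lemma Inner.two {x : P} (h : Inner j N b θ x) {k : ℕ} (hk : 1 ≤ k) (hkx : k < lev x) :
    2 ≤ nab k x := by
  obtain ⟨Nc, co, h0, h1, hx, h2, h3, -⟩ := h
  exact chart_inner_nab h0.chart hx h2 h3 hk hkx

lemma Inner.th {x : P} (h : Inner j N b θ x) : θ (topOf x) x = lev x - 2 := by
  obtain ⟨Nc, co, h0, h1, hx, h2, h3, h4⟩ := h
  exact h4

section Twins

open Classical in
/-- the unnatural twins of level `j + 1` -/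
noncomputable def twY (j : ℕ) (N : Tops P → Finset P) : Finset P :=
  (unnat N).filter (fun z => lev z = j + 1 ∧ ∃ y, y ∉ unnat N ∧ ∀ w, y < w ↔ z < w)

open Classical in
/-- a natural element with the same strict up-set -/
noncomputable def twT (N : Tops P → Finset P) (z : P) : P :=
  if h : ∃ y, y ∉ unnat N ∧ ∀ w, y < w ↔ z < w then h.choose else z

lemma mem_twY {z : P} : z ∈ twY j N ↔ z ∈ unnat N ∧ lev z = j + 1 ∧
    ∃ y, y ∉ unnat N ∧ ∀ w, y < w ↔ z < w := by
  classical
  unfold twY
  rw [mem_filter]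

lemma twT_spec {z : P} (h : ∃ y, y ∉ unnat N ∧ ∀ w, y < w ↔ z < w) :
    twT N z ∉ unnat N ∧ ∀ w, twT N z < w ↔ z < w := by
  unfold twT
  rw [dif_pos h]
  exact h.choose_spec

theorem W1.twSys (W : W1 r j N b θ) : TwSys (unnat N) (twY j N) topOf (twT N) where
  sub := fun x hx => (mem_twY.mp hx).1
  nat := fun x hx => (twT_spec (mem_twY.mp hx).2.2).1
  up := fun x hx => (twT_spec (mem_twY.mp hx).2.2).2
  inj := by
    intro x hx x' hx' h
    have h1 := mem_twY.mp hx
    have h2 := mem_twY.mp hx'
    have h3 := twT_spec h1.2.2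
    have h4 := twT_spec h2.2.2
    by_contra hne
    have h5 : x < (topOf x : P) := lt_of_le_of_ne (le_topOf x) (by
      intro h
      have := (topOf x).2
      rw [← h] at this
      omega)
    obtain ⟨u, hu, -⟩ := Hul.exists_cov h5
    have hu' : twT N x ⋖ u := (cov_of_up h3.2).mpr hu
    have hu'' : x' ⋖ u := by
      rw [h] at hu'
      exact (cov_of_up h4.2).mp hu'
    refine Win.dc_three W.gt.H hu hu'' hu' hne ?_ ?_
    · intro h6
      exact h3.1 (h6 ▸ h1.1)
    · intro h6
      rw [h] at h6
      exact h4.1 (h6 ▸ h2.1)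
  anti := by
    intro x hx y hy h
    have h1 := mem_twY.mp hx
    have h2 := mem_twY.mp hy
    have := lev_strictAnti h
    omega
  cp := by
    intro x hx
    have h1 := mem_twY.mp hx
    have h3 := twT_spec h1.2.2
    have h5 : x < (topOf x : P) := lt_of_le_of_ne (le_topOf x) (by
      intro h
      have := (topOf x).2
      rw [← h] at this
      omega)
    have h6 : twT N x ∈ N (topOf (twT N x)) := W.natSys.mem_iff.mpr ⟨h3.1, rfl⟩
    exact (Subtype.ext (W.natSys.top_eq h6 (topOf x).2 ((h3.2 _).mpr h5).le)).symm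

lemma W1.inner_tw (W : W1 r j N b θ) {x : P} (hx : x ∈ twY j N) : Inner j N b θ (twT N x) := by
  have h1 := mem_twY.mp hx
  have h3 := twT_spec h1.2.2
  rcases W.cases h3.1 with h | h
  · exact absurd h3.2 (h.tw x h1.1)
  · exact h

/-- the sum of the excesses `lev x - i` above `z` as a cost -/
lemma cst_full (i : ℕ) (z : P) : cst i (fun w => lev w - i) z =
    ∑ w, (by classical exact if z ≤ w then lev w - i else 0) := by
  classical
  unfold cst ez
  refine Finset.sum_congr rfl fun w _ => ?_
  by_cases h : z ≤ w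
  · rw [if_pos h, if_pos h]
    have h1 : lev w ≤ lev z := by
      rcases eq_or_lt_of_le h with h | h
      · rw [h]
      · exact (lev_strictAnti h).le
    exact Nat.min_eq_right (Nat.sub_le_sub_right h1 i)
  · rw [if_neg h, if_neg h]

lemma sum_above_split (i : ℕ) (z : P) :
    ∑ w, (by classical exact if z ≤ w then lev w - i else 0) =
      (lev z - i) + ∑ w, (by classical exact if z < w then lev w - i else 0) := by
  classical
  rw [← Finset.add_sum_erase univ _ (mem_univ z), if_pos le_rfl,
    ← Finset.add_sum_erase univ (fun y => if z < y then lev y - i else 0) (mem_univ z),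
    if_neg (lt_irrefl z), zero_add]
  congr 1
  refine Finset.sum_congr rfl fun y hy => ?_
  have hne := (mem_erase.mp hy).1
  by_cases h4 : z < y
  · rw [if_pos h4, if_pos h4.le]
  · rw [if_neg h4, if_neg]
    intro h5
    exact h4 (lt_of_le_of_ne h5 (Ne.symm hne))

/-- the twins are harmless below energy `j ^ 2 + j - 1` -/
theorem W1.twinPair (W : W1 r j N b θ) {x : P} (hx : x ∈ twY j N) :
    TwinPair 1 (thX (twY j N) (twT N) (fun x => θ (topOf x) x)) (j ^ 2 + 1) (twT N x) x := by
  classical
  have T := W.twSys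
  have hj := W.two_le
  have h1 := mem_twY.mp hx
  have hI := W.inner_tw hx
  have hlev : lev (twT N x) = j + 1 := by rw [T.lev hx]; exact h1.2.1
  have hnY : twT N x ∉ twY j N := fun h => T.nat x hx (mem_twY.mp h).1
  have hth : thX (twY j N) (twT N) (fun x => θ (topOf x) x) (twT N x) = j - 1 := by
    rw [thX_not hnY, hI.th, hlev]
    omega
  have hth' : thX (twY j N) (twT N) (fun x => θ (topOf x) x) x = j - 1 := by
    rw [thX_of hx, hI.th, hlev]
    omega
  have hsq : j ^ 2 ≤ ∑ w, (if twT N x ≤ w then lev w - 1 else 0) := by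
    have h2 := sq_le_cst (i := 1) (h := fun w : P => lev w - 1) (z := twT N x) (by omega) rfl
      (fun k hk hk2 => hI.two hk.le hk2)
    rw [cst_full, hlev] at h2
    exact h2
  have hsp := sum_above_split 1 (twT N x)
  refine ⟨?_, T.up x hx, ?_, ?_, ?_, ?_, ?_⟩
  · intro h
    exact T.nat x hx (h.symm ▸ h1.1)
  · rw [hth]; omega
  · rw [hth, hth']
  · rw [hth, hlev]; omega
  · rw [hth]
    have : j ^ 2 + 1 ≤ j ^ 2 + (j - 1) := by omega
    exact this.trans (Nat.add_le_add_right hsq _)
  · rw [hth]
    have h3 : ∀ w, (if twT N x < w then min (j - 1 + 1) (lev w - 1) else 0) =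
        (if twT N x < w then lev w - 1 else 0) := by
      intro w
      split_ifs with h4
      · have := lev_strictAnti h4
        exact Nat.min_eq_right (by omega)
      · rfl
    rw [Finset.sum_congr rfl fun w _ => h3 w]
    rw [hlev] at hsp
    have h5 : ∑ w, (if twT N x ≤ w then lev w - 1 else 0) =
      (j + 1 - 1) + ∑ w, (if twT N x < w then lev w - 1 else 0) := hsp
    omega

theorem W1.farT (W : W1 r j N b θ) : FarT P 1 (unnat N \ twY j N) (lv P 1).card
    (hcan (unnat N \ twY j N) (thX (twY j N) (twT N) (fun x => θ (topOf x) x))) (j ^ 2 + 1) := by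
  choose B hB using fun t => (W.typ t).natTop W.gt.H.gradedBelow
  have h := farT_of_tops W.gt.H.gradedBelow hB W.twSys (j ^ 2 + 1) (fun x hx => W.twinPair hx)
  rw [W.sum_b] at h
  exact h

end Twins

end Pool.Agent.GaussPoset
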