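import Pool.Agent.W_448rr_h67.RrC

/-!
# Rectangle-like components at window 1 (MP_448cb3_co): the boundary, no rotation
-/

namespace Pool.Agent.GaussPoset

set_option linter.unusedSectionVars false

open Polynomial Finset

universe u

variable {P : Type u} [Fintype P] [PartialOrder P] [DecidableEq P] {r j : ℕ}
  {N : Tops P → Finset P} {b : Tops P → ℕ} {θ : Tops P → P → ℕ}

/-- the elements above `z` when `z` has the two covers `x`, `x'` -/
lemma nab_le_add {z x x' : P} (h : ∀ y, z ⋖ y → y = x ∨ y = x') {k : ℕ} (hk : k < lev z) :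
    nab k z ≤ nab k x + nab k x' := by
  classical
  unfold nab
  refine le_trans (Finset.card_le_card ?_) (Finset.card_union_le _ _)
  intro y hy
  rw [mem_filter, mem_lv] at hy
  rw [mem_union, mem_filter, mem_filter, mem_lv]
  have hne : z ≠ y := by rintro rfl; omega
  obtain ⟨v, hv, hvy⟩ := Hul.exists_cov (lt_of_le_of_ne hy.2 hne)
  rcases h v hv with h1 | h1
  · rw [h1] at hvy
    exact Or.inl ⟨hy.1, hvy⟩
  · rw [h1] at hvy
    exact Or.inr ⟨hy.1, hvy⟩

/-- the elements above twins -/
lemma nab_le_of_up {x z : P} (h : ∀ w, x < w ↔ z < w) {k : ℕ} (hk : k < lev x) :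
    nab k x ≤ nab k z := by
  classical
  unfold nab
  refine Finset.card_le_card fun y hy => ?_
  rw [mem_filter, mem_lv] at hy ⊢
  have hne : x ≠ y := by rintro rfl; omega
  exact ⟨hy.1, ((h y).mp (lt_of_le_of_ne hy.2 hne)).le⟩

/-- the rotations of level `j + 1`: below the two straight ends -/
def Rt (j : ℕ) (N : Tops P → Finset P) (b : Tops P → ℕ) (z : P) : Prop :=
  ∃ (Nc : Finset P) (co : P → ℕ × ℕ) (x x' : P), RectNat j 1 (topOf z) (b (topOf z)) Nc co ∧
    N (topOf z) = natR Nc co ∧ x ∈ Nc ∧ x' ∈ Nc ∧ z ⋖ x ∧ z ⋖ x' ∧ co x = (0, j) ∧ co x' = (j, 0)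

/-- an element of level `j + 1` which is neither natural nor a twin is a rotation -/
theorem W1.rt_of (W : W1 r j N b θ) {z : P} (hz : z ∈ unnat N) (hl : lev z = j + 1)
    (hY : z ∉ twY j N) : Rt j N b z := by
  classical
  have H := W.gt.H
  have HN := W.natSys
  have hj := W.two_le
  have hone : z ∈ onlyB (topOf z) := by
    rw [mem_onlyB]
    intro s hs hzs
    by_contra hne
    exact W.nojn z hl ⟨s, topOf z, hs, (topOf z).2, hne, hzs, le_topOf z⟩
  have hne : N (topOf z) ≠ onlyB (topOf z) := fun h => mem_unnat.mp hz (topOf z) (h ▸ hone)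
  rcases W.typ (topOf z) with ⟨h1, h2, h3, h4, h5, h6⟩ | ⟨Nc, co, h0, h1, h2, h4⟩ |
    ⟨Nc, co, h0, h1, h2, h3, h4, h5⟩
  · exact absurd h1 hne
  · -- the covers of `z`
    have hcov : ∀ y, z ⋖ y → lev y = j ∧ y ∈ Nc := by
      intro y hy
      have e1 := (H.covBy_iff.mp hy).2
      have e2 : lev y = j := by omega
      refine ⟨e2, h0.strip (mem_lowPart.mpr ⟨?_, e2.le⟩)⟩
      have e3 := (mem_onlyB.mp hone) (topOf y) (topOf y).2 (hy.1.le.trans (le_topOf y))
      rw [← e3]
      exact le_topOf y
    have hzt : z < (topOf z : P) := lt_of_le_of_ne (le_topOf z) (by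
      intro h
      have := (topOf z).2
      rw [← h] at this
      omega)
    obtain ⟨x, hzx, hxt⟩ := Hul.exists_cov hzt
    obtain ⟨hlx, hx⟩ := hcov x hzx
    have hcl := h0.chart.lev x hx
    by_cases honly : ∀ y, z ⋖ y → y = x
    · exfalso
      have hp := rect_pendant H h0 h1 hz (x := x) (by rw [h1]; exact mem_natR.mpr (Or.inl hx))
        hzx honly
      exact W.nopen (topOf z) hne x z hxt hlx
        (chart_inner_uc h0.chart H hx hp.2.2.2.1 hp.2.2.2.2) hzx honly
    · push Not at honly
      obtain ⟨x', hzx', hne'⟩ := honly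
      obtain ⟨hlx', hx'⟩ := hcov x' hzx'
      have hcl' := h0.chart.lev x' hx'
      obtain ⟨i, rfl⟩ : ∃ i, j = i + 1 := ⟨j - 1, by omega⟩
      rcases (Win.near_level' W.gt (by omega)).1 z x x' (by omega) hzx hzx' (Ne.symm hne') with
        h7 | ⟨h7, h8, -⟩
      · -- adjacent: a twin
        exfalso
        obtain ⟨p, hp⟩ := Finset.card_eq_one.mp h7
        have hp2 : x ⋖ p ∧ x' ⋖ p := by
          have : p ∈ (univ.filter (fun y : P => x ⋖ y ∧ x' ⋖ y)) := by rw [hp]; simp
          simpa using this
        have hpN := h0.chart.up x hx p hp2.1.le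
        have e1 := (chart_cov h0.chart H hx hpN).mp hp2.1
        have e2 := (chart_cov h0.chart H hx' hpN).mp hp2.2
        have hcne : co x ≠ co x' := fun h => hne' (h0.chart.inj x hx x' hx' h).symm
        have key : ∀ x x' : P, x ∈ Nc → x' ∈ Nc → z ⋖ x → z ⋖ x' →
            co x = ((co p).1 + 1, (co p).2) → co x' = ((co p).1, (co p).2 + 1) → False := by
          intro x x' hx hx' hzx hzx' hcx hcx'
          obtain ⟨y, hy, -, hyx, hyx', hyz⟩ := max_pair h0.chart h0.max H (z := z) (by
            intro h
            refine mem_unnat.mp hz (topOf z) ?_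
            rw [h1]
            exact mem_natR.mpr (Or.inl h)) hx hx' hzx hzx' hcx hcx' trivial
          have hxx' : x ≠ x' := by
            rintro rfl
            rw [hcx] at hcx'
            simp at hcx'
          refine hY (mem_twY.mpr ⟨hz, hl, y, ?_, up_of_cov fun w => ?_⟩)
          · refine (HN.mem_iff (t := topOf z).mp ?_).1
            rw [h1]
            exact mem_natR.mpr (Or.inl hy)
          · constructor
            · intro h
              by_cases g1 : w = x
              · rw [g1]; exact hzx
              · by_cases g2 : w = x'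
                · rw [g2]; exact hzx'
                · exact (Win.uc_three H h hyx hyx' g1 g2 hxx').elim
            · intro h
              by_cases g1 : w = x
              · rw [g1]; exact hyx
              · by_cases g2 : w = x'
                · rw [g2]; exact hyx'
                · exact (Win.uc_three H h hzx hzx' g1 g2 hxx').elim
        rcases e1 with e1 | e1
        · rcases e2 with e2 | e2
          · exact hcne (Prod.ext (by omega) (by omega))
          · exact key x x' hx hx' hzx hzx' (Prod.ext e1.1 e1.2) (Prod.ext e2.1 e2.2)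
        · rcases e2 with e2 | e2
          · exact key x' x hx' hx hzx' hzx (Prod.ext e2.1 e2.2) (Prod.ext e1.1 e1.2)
          · exact hcne (Prod.ext (by omega) (by omega))
      · -- both single-up
        have key : ∀ x ∈ Nc, (Win.uc x).card = 1 → (co x).1 = 0 ∨ (co x).2 = 0 := by
          intro x hx h
          by_contra hcon
          have := chart_inner_uc h0.chart H hx (by omega) (by omega)
          omega
        have hcne : co x ≠ co x' := fun h => hne' (h0.chart.inj x hx x' hx' h).symm
        rcases key x hx h7 with e1 | e1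
        · have f1 : co x = (0, i + 1) := Prod.ext e1 (by simp only; omega)
          rcases key x' hx' h8 with e2 | e2
          · have f2 : co x' = (0, i + 1) := Prod.ext e2 (by simp only; omega)
            exact absurd (f1.trans f2.symm) hcne
          · have f2 : co x' = (i + 1, 0) := Prod.ext (by simp only; omega) e2
            exact ⟨Nc, co, x, x', h0, h1, hx, hx', hzx, hzx', f1, f2⟩
        · have f1 : co x = (i + 1, 0) := Prod.ext (by simp only; omega) e1
          rcases key x' hx' h8 with e2 | e2
          · have f2 : co x' = (0, i + 1) := Prod.ext e2 (by simp only; omega)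
            exact ⟨Nc, co, x', x, h0, h1, hx', hx, hzx', hzx, f2, f1⟩
          · have f2 : co x' = (i + 1, 0) := Prod.ext (by simp only; omega) e2
            exact absurd (f1.trans f2.symm) hcne
  · omega

end Pool.Agent.GaussPoset
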