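import Pool.Agent.W_448rr_h67.RrE
import Pool.Agent.W_448s6_h67.PcC

/-!
# The pieces of the first bad level in a rectangle-like component (MP_448cb3_co)
-/

namespace Pool.Agent.GaussPoset

set_option linter.unusedSectionVars false

open Finset

universe u

variable {P : Type u} [Fintype P] [PartialOrder P] [DecidableEq P] {r j : ℕ}
  {lo hi : Tops P → ℕ → ℕ} {e : Tops P → ℕ → ℕ → P}

/-- no common lower cover of the two ends of a rectangle-like component -/
theorem rect_dcv_ends (h : Win.GoodTo P r j) (hj : 2 ≤ j)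
    (hno : ∀ z : P, lev z = j + 1 → ¬ Hul.Jn z)
    (C : ∀ t : Tops P, Cp.Comp j (t : P) (lo t) (hi t) (e t))
    (hT : ∀ t : Tops P, lo t 1 = hi t 1 ∨ RectShape j (lo t) (hi t)) {t : Tops P}
    (ht : lo t 1 ≠ hi t 1) (h2 : lo t j + 2 ≤ hi t j) :
    dcv (e t j (lo t j)) (e t j (hi t j)) = 0 := by
  classical
  by_contra hcon
  obtain ⟨z, hz⟩ := Finset.card_pos.mp (Nat.pos_of_ne_zero hcon)
  have hz2 : z ⋖ e t j (lo t j) ∧ z ⋖ e t j (hi t j) := by simpa using hz
  have hl := (C t).lev_e j (lo t j) le_rfl le_rfl (by omega)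
  have hl2 := (h.H.covBy_iff.mp hz2.1).2
  have hne : e t j (lo t j) ≠ e t j (hi t j) := by
    intro h3
    have := (C t).inj j _ _ le_rfl le_rfl (by omega) (by omega) le_rfl h3
    omega
  have h4 := rect_no_rotation h hj hno C hT ht (z := z) (by omega)
    (hz2.1.1.le.trans ((C t).le_t j _ le_rfl le_rfl (by omega))) hz2.1 hz2.2 hne
  have h5 := (C t).toWin.ucv_lt h t.2 le_rfl le_rfl (show lo t j < hi t j by omega) le_rfl
  rw [h4, if_neg (by omega)] at h5
  omega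

/-- S6 for a rectangle-like component: no defect at the pair of the ends -/
theorem rect_pieces {i : ℕ} (h : Win.GoodTo P r (i + 1)) (hi1 : 1 ≤ i) (hr : i + 2 ≤ r)
    (hno : ∀ z : P, lev z = i + 2 → ¬ Hul.Jn z)
    (C : ∀ t : Tops P, Cp.Comp (i + 1) (t : P) (lo t) (hi t) (e t))
    (hT : ∀ t : Tops P, lo t 1 = hi t 1 ∨ RectShape (i + 1) (lo t) (hi t)) {t : Tops P}
    (ht : lo t 1 ≠ hi t 1) :
    ∃ c : ℕ → ℤ, Win.PcPat (hi t (i + 1) - lo t (i + 1)) c 0 ∧
      (∀ a b, lo t (i + 1) ≤ a → a < b → b ≤ hi t (i + 1) →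
        (dcv (e t (i + 1) a) (e t (i + 1) b) : ℤ) - ucv (e t (i + 1) a) (e t (i + 1) b) =
          if b = a + 1 then c (a - lo t (i + 1)) else 0) ∧
      (∀ a, lo t (i + 1) < a → a < hi t (i + 1) →
        ¬ (c (a - 1 - lo t (i + 1)) = -1 ∧ c (a - lo t (i + 1)) = -1)) := by
  classical
  obtain ⟨c, β, h1, h2, h3, h4⟩ := Win.S6_pieces h hi1 hr hno t.2 (C t).toWin
  have hlohi := (C t).lo_le (i + 1) le_rfl
  have hβ : β = 0 := by
    by_cases hm : lo t (i + 1) + 2 ≤ hi t (i + 1)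
    · have h5 := h2 (lo t (i + 1)) (hi t (i + 1)) le_rfl (by omega) le_rfl
      rw [if_neg (by omega), if_pos ⟨rfl, rfl⟩, rect_dcv_ends h (by omega) hno C hT ht hm,
        (C t).toWin.ucv_lt h t.2 le_rfl le_rfl (show lo t (i + 1) < hi t (i + 1) by omega) le_rfl,
        if_neg (by omega)] at h5
      have : (0 : ℤ) = β := by simpa using h5
      exact this.symm
    · rcases h1 with ⟨e, -⟩ | ⟨e, -⟩ | ⟨e, -⟩ | ⟨e, -⟩ | ⟨e, -⟩ | ⟨e, -⟩ | ⟨e, -⟩ | ⟨e, -⟩
      · exact e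
      all_goals omega
  subst hβ
  refine ⟨c, h1, ?_, ?_⟩
  · intro a b ha hab hb
    rw [h2 a b ha hab hb]
    split_ifs <;> rfl
  · intro a ha hb hc
    have h5 := h4 a ha hb hc.1 hc.2
    have h6 := (Win.near_level' h hi1).2 t (lo t) (hi t) (e t) t.2 (C t).toWin
    obtain ⟨n1, n2⟩ := rectShape_no_co (C t) ((hT t).resolve_left ht)
    have f1 := (C t).lo_step i (by omega)
    have f2 := (C t).hi_step i (by omega)
    rcases h6 with ⟨-, -, h8⟩ | ⟨h8, -⟩ | ⟨h8, -⟩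
    · rw [h8 a (by omega) (by omega)] at h5
      omega
    · exact n1 h8
    · exact n2 h8

end Pool.Agent.GaussPoset
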